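import Pool.Agent.Lib_MP_166f70_ins.Core

/-!
# MP_166f70_co, Q1: the rational minimum rank exceeds the minimum rank, for every `r ≥ 3`
-/

set_option autoImplicit false

namespace Pool.Agent.Results.MP_166f70_co.MinimumRankGap

universe u

/-- `r` is the minimum rank over the ordered field `K` of the sign pattern `A`: the least rank of a
matrix over `K` whose entries have the signs that `A` prescribes. For `K = ℝ` it is `mr(A)`, for `K = ℚ`
it is the rational minimum rank. -/
def MinRank (K : Type u) [Field K] [LinearOrder K] {m n : ℕ}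
    (A : Matrix (Fin m) (Fin n) SignType) (r : ℕ) : Prop :=
  IsLeast {k : ℕ | ∃ B : Matrix (Fin m) (Fin n) K,
    (∀ i j, SignType.sign (B i j) = A i j) ∧ B.rank = k} r

theorem minRank_of {K : Type u} [Field K] [LinearOrder K] [IsStrictOrderedRing K] (t : ℕ) :
    (IsSquare (5 : K) → MinRank K (Ins166f70.AA t) (t + 3)) ∧
      (¬ IsSquare (5 : K) → MinRank K (Ins166f70.AA t) (t + 4)) := by
  constructor
  · rintro ⟨s, hs⟩
    have hφ : (1 + |s|) / 2 * ((1 + |s|) / 2) = (1 + |s|) / 2 + 1 := by
      have h1 : |s| * |s| = 5 := by rw [abs_mul_abs_self, hs]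
      linear_combination (1 / 4 : K) * h1
    have h0 : (0 : K) < (1 + |s|) / 2 := by
      have := abs_nonneg s
      linarith
    obtain ⟨B, hB, hr⟩ := Ins166f70.exists_golden hφ h0 t
    have hlow := (Ins166f70.low t B (Ins166f70.zero_iff hB)).1
    refine ⟨⟨B, hB, le_antisymm hr hlow⟩, ?_⟩
    rintro k ⟨B', hB', rfl⟩
    exact (Ins166f70.low t B' (Ins166f70.zero_iff hB')).1
  · intro hns
    have key : ∀ B : Matrix (Fin (t + 10)) (Fin (t + 12)) K,
        (∀ i j, SignType.sign (B i j) = Ins166f70.AA t i j) → t + 4 ≤ B.rank := by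
      intro B hB
      obtain ⟨h1, h2⟩ := Ins166f70.low t B (Ins166f70.zero_iff hB)
      rcases Nat.lt_or_eq_of_le h1 with h3 | h3
      · omega
      · exfalso
        obtain ⟨s, hs⟩ := h2 h3.symm
        apply hns
        refine ⟨2 * s - 1, ?_⟩
        linear_combination (-4 : K) * hs
    obtain ⟨B, hB, hr⟩ := Ins166f70.exists_any (K := K) t
    refine ⟨⟨B, hB, le_antisymm hr (key B hB)⟩, ?_⟩
    rintro k ⟨B', hB', rfl⟩
    exact key B' hB'

/-- For every `r ≥ 3` there is an explicit sign pattern `A` with `r + 7` rows and `r + 9` columns and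
at most `r` zeros in each column, whose minimum rank is `r` and whose rational minimum rank is `r + 1`;
over any ordered field `K` its minimum rank is `r` if `5` is a square in `K`, and `r + 1` otherwise. -/
theorem result (r : ℕ) (hr : 3 ≤ r) :
    ∃ A : Matrix (Fin (r + 7)) (Fin (r + 9)) SignType,
      (∀ j, (Finset.univ.filter (fun i => A i j = 0)).card ≤ r) ∧
      MinRank ℝ A r ∧ MinRank ℚ A (r + 1) ∧
      ∀ (K : Type u) [Field K] [LinearOrder K] [IsStrictOrderedRing K],
        (IsSquare (5 : K) → MinRank K A r) ∧ (¬ IsSquare (5 : K) → MinRank K A (r + 1)) := by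
  obtain ⟨t, rfl⟩ := Nat.exists_eq_add_of_le' hr
  refine ⟨Ins166f70.AA t, Ins166f70.zeros t, ?_, ?_, ?_⟩
  · refine (minRank_of (K := ℝ) t).1 ⟨√5, ?_⟩
    rw [Real.mul_self_sqrt (by norm_num)]
  · refine (minRank_of (K := ℚ) t).2 ?_
    rintro ⟨s, hs⟩
    have h5 : Irrational (√5) := by
      have := Nat.Prime.irrational_sqrt (p := 5) (by norm_num)
      exact_mod_cast this
    apply h5
    refine ⟨|s|, ?_⟩
    rw [Rat.cast_abs, ← Real.sqrt_sq_eq_abs]
    congr 1
    have h2 : (5 : ℝ) = (s : ℝ) * s := by exact_mod_cast hs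
    rw [h2, sq]
  · intro K _ _ _
    exact minRank_of (K := K) t

end Pool.Agent.Results.MP_166f70_co.MinimumRankGap
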